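import Pool.Agent.Lib.MP_904b2a_gt.H41.Small

/-!
# MP_904b2a_gt, module SING-2, part 5: the small simplices theorem for two open sets, and for
cochains
-/

open scoped BigOperators

namespace Pool.Agent.Lib.MP_904b2a_gt.H41

noncomputable section

variable {X : Type*} [TopologicalSpace X] {ι : Type*}

/-- The sets `U`, `V` as a family. -/
def two (U V : Set X) : Bool → Set X := fun b => if b then U else V

theorem mem_small_two {U V : Set X} {n : ℕ} {σ : C(Simp n, X)} :
    σ ∈ small (two U V) n ↔ Set.range σ ⊆ U ∨ Set.range σ ⊆ V := by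
  constructor
  · rintro ⟨b, hb⟩
    cases b
    · exact Or.inr hb
    · exact Or.inl hb
  · rintro (h | h)
    · exact ⟨true, h⟩
    · exact ⟨false, h⟩

theorem isOpen_two {U V : Set X} (hU : IsOpen U) (hV : IsOpen V) (b : Bool) :
    IsOpen (two U V b) := by
  cases b
  · exact hV
  · exact hU

theorem iUnion_two {U V : Set X} (h : U ∪ V = Set.univ) : ⋃ b, two U V b = Set.univ := by
  rw [Set.eq_univ_iff_forall] at h ⊢
  intro x
  rcases h x with hx | hx
  · exact Set.mem_iUnion.mpr ⟨true, hx⟩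
  · exact Set.mem_iUnion.mpr ⟨false, hx⟩

/-- **The small simplices theorem** for two open sets (chain level). -/
theorem small_simplices_two (U V : Set X) (hU : IsOpen U) (hV : IsOpen V)
    (h : U ∪ V = Set.univ) :
    ∃ (ρ : ∀ n, Ch n X →+ Ch n X) (D : ∀ n, Ch n X →+ Ch (n + 1) X),
      (∀ n c, sbd n (ρ (n + 1) c) = ρ n (sbd n c)) ∧
      (∀ n c, ∀ σ ∈ (ρ n c).support, Set.range σ ⊆ U ∨ Set.range σ ⊆ V) ∧
      (∀ n (σ : C(Simp n, X)), (Set.range σ ⊆ U ∨ Set.range σ ⊆ V) →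
        ρ n (Finsupp.single σ 1) = Finsupp.single σ 1 ∧ D n (Finsupp.single σ 1) = 0) ∧
      (∀ c, sbd 0 (D 0 c) = ρ 0 c - c) ∧
      (∀ n c, sbd (n + 1) (D (n + 1) c) + D n (sbd n c) = ρ (n + 1) c - c) ∧
      (∀ n (σ : C(Simp n, X)), ∀ τ ∈ (ρ n (Finsupp.single σ 1)).support,
        Set.range τ ⊆ Set.range σ) ∧
      (∀ n (σ : C(Simp n, X)), ∀ τ ∈ (D n (Finsupp.single σ 1)).support,
        Set.range τ ⊆ Set.range σ) := by
  obtain ⟨ρ, D, h1, h2, h3, h4, h5, h6⟩ := small_simplices (two U V) (isOpen_two hU hV)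
    (iUnion_two h)
  refine ⟨fun n => (ρ n).toAddMonoidHom, fun n => (-(D n)).toAddMonoidHom, h1, ?_, ?_, ?_, ?_,
    ?_, ?_⟩
  · intro n c σ hσ
    exact mem_small_two.mp ((Finsupp.mem_supported _ _).mp (h2 n c) hσ)
  · intro n σ hσ
    obtain ⟨e1, e2⟩ := h3 n _ (single_mem_supported (mem_small_two.mpr hσ))
    refine ⟨e1, ?_⟩
    change (-(D n)) _ = 0
    rw [LinearMap.neg_apply, e2, neg_zero]
  · intro c
    change sbd 0 ((-(D 0)) c) = ρ 0 c - c
    rw [LinearMap.neg_apply, map_neg, h4, neg_sub]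
  · intro n c
    change sbd (n + 1) ((-(D (n + 1))) c) + (-(D n)) (sbd n c) = ρ (n + 1) c - c
    rw [LinearMap.neg_apply, LinearMap.neg_apply, map_neg, ← neg_add, h5, neg_sub]
  · intro n σ τ hτ
    exact (Finsupp.mem_supported _ _).mp (h6 n _ _ (single_mem_range n σ)).1 hτ
  · intro n σ τ hτ
    change τ ∈ ((-(D n)) (Finsupp.single σ 1)).support at hτ
    rw [LinearMap.neg_apply, Finsupp.support_neg] at hτ
    exact (Finsupp.mem_supported _ _).mp (h6 n _ _ (single_mem_range n σ)).2 hτ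

/-! ## Cochains -/

section Cochains

variable {A : Type*} [AddCommGroup A]

/-- Evaluation of a cochain on chains. -/
def ev {n : ℕ} (φ : Coch n X A) : Ch n X →+ A :=
  Finsupp.liftAddHom (fun σ => zmultiplesHom A (φ σ))

@[simp]
theorem ev_single {n : ℕ} (φ : Coch n X A) (σ : C(Simp n, X)) :
    ev φ (Finsupp.single σ 1) = φ σ := by
  simp [ev]

theorem ev_add {n : ℕ} (φ ψ : Coch n X A) (c : Ch n X) : ev (φ + ψ) c = ev φ c + ev ψ c := by
  have : ev (φ + ψ) = ev φ + ev ψ := by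
    refine Finsupp.addHom_ext' fun σ => ?_
    ext
    simp [ev]
  rw [this, AddMonoidHom.add_apply]

theorem ev_zero {n : ℕ} (c : Ch n X) : ev (0 : Coch n X A) c = 0 := by
  have : ev (0 : Coch n X A) = 0 := by
    refine Finsupp.addHom_ext' fun σ => ?_
    ext
    simp [ev]
  rw [this, AddMonoidHom.zero_apply]

theorem ev_neg {n : ℕ} (φ : Coch n X A) (c : Ch n X) : ev (-φ) c = -ev φ c := by
  rw [eq_neg_iff_add_eq_zero, ← ev_add, neg_add_cancel, ev_zero]

theorem ev_sub {n : ℕ} (φ ψ : Coch n X A) (c : Ch n X) : ev (φ - ψ) c = ev φ c - ev ψ c := by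
  rw [sub_eq_add_neg, ev_add, ev_neg, ← sub_eq_add_neg]

theorem ev_sbd {n : ℕ} (φ : Coch n X A) (c : Ch (n + 1) X) :
    ev φ (sbd n c) = ev (cob n φ) c := by
  have : (ev φ).comp (sbd n).toAddMonoidHom = ev (cob n φ) := by
    refine Finsupp.addHom_ext' fun σ => ?_
    ext
    simp only [AddMonoidHom.comp_apply, Finsupp.singleAddHom_apply, LinearMap.toAddMonoidHom_coe,
      sbd_single, map_sum, map_zsmul, ev_single, cob_apply]
  exact DFunLike.congr_fun this c

/-- Cochains which vanish on the simplices in `S` vanish on the chains supported in `S`. -/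
theorem ev_eq_zero {n : ℕ} {φ : Coch n X A} {S : Set C(Simp n, X)} (h : ∀ σ ∈ S, φ σ = 0)
    {c : Ch n X} (hc : c ∈ Finsupp.supported ℤ ℤ S) : ev φ c = 0 := by
  rw [ev, Finsupp.liftAddHom_apply, Finsupp.sum]
  refine Finset.sum_eq_zero fun σ hσ => ?_
  rw [zmultiplesHom_apply, h σ ((Finsupp.mem_supported _ _).mp hc hσ), smul_zero]

theorem ev_congr {n : ℕ} {φ ψ : Coch n X A} {S : Set C(Simp n, X)} (h : ∀ σ ∈ S, φ σ = ψ σ)
    {c : Ch n X} (hc : c ∈ Finsupp.supported ℤ ℤ S) : ev φ c = ev ψ c := by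
  rw [← sub_eq_zero, ← ev_sub]
  exact ev_eq_zero (fun σ hσ => by rw [Pi.sub_apply, h σ hσ, sub_self]) hc

/-- **Small cocycles extend**: if `cob φ` vanishes on small simplices, there is a cocycle which
agrees with `φ` on small simplices. -/
theorem exists_cocycle (U : ι → Set X) (hU : ∀ i, IsOpen (U i)) (hc : ⋃ i, U i = Set.univ)
    {n : ℕ} (φ : Coch n X A) (h : ∀ σ ∈ small U (n + 1), cob n φ σ = 0) :
    ∃ ψ ∈ cocycles X A n, ∀ σ ∈ small U n, ψ σ = φ σ := by
  obtain ⟨ρ, D, h1, h2, h3, -⟩ := small_simplices U hU hc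
  refine ⟨fun σ => ev φ (ρ n (Finsupp.single σ 1)), ?_, fun σ hσ => ?_⟩
  · change cob n _ = 0
    funext σ
    have e : ev (fun σ => ev φ (ρ n (Finsupp.single σ 1))) =
        (ev φ).comp (ρ n).toAddMonoidHom := by
      refine Finsupp.addHom_ext' fun σ => ?_
      ext
      simp
    rw [← ev_single (cob n _) σ, ← ev_sbd, e]
    change ev φ (ρ n (sbd n (Finsupp.single σ 1))) = 0
    rw [← h1, ev_sbd]
    exact ev_eq_zero h (h2 _ _)
  · dsimp only
    rw [(h3 n _ (single_mem_supported hσ)).1, ev_single]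

/-- **Cocycles which are coboundaries on small simplices are coboundaries**, and the primitive can
be prescribed on small simplices. -/
theorem exists_primitive (U : ι → Set X) (hU : ∀ i, IsOpen (U i)) (hc : ⋃ i, U i = Set.univ)
    {n : ℕ} (φ : Coch (n + 1) X A) (hφ : φ ∈ cocycles X A (n + 1)) (η : Coch n X A)
    (h : ∀ σ ∈ small U (n + 1), φ σ = cob n η σ) :
    ∃ ψ : Coch n X A, cob n ψ = φ ∧ ∀ σ ∈ small U n, ψ σ = η σ := by
  obtain ⟨ρ, D, h1, h2, h3, -, h5, -⟩ := small_simplices U hU hc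
  refine ⟨fun σ => ev φ (D n (Finsupp.single σ 1)) + ev η (ρ n (Finsupp.single σ 1)), ?_,
    fun σ hσ => ?_⟩
  · funext σ
    have e : ev (fun σ => ev φ (D n (Finsupp.single σ 1)) + ev η (ρ n (Finsupp.single σ 1))) =
        (ev φ).comp (D n).toAddMonoidHom + (ev η).comp (ρ n).toAddMonoidHom := by
      refine Finsupp.addHom_ext' fun σ => ?_
      ext
      simp
    rw [← ev_single (cob n _) σ, ← ev_sbd, e]
    change ev φ (D n (sbd n (Finsupp.single σ 1))) + ev η (ρ n (sbd n (Finsupp.single σ 1))) = _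
    rw [← h1, ev_sbd, ← ev_congr h (h2 _ _)]
    have h6 : D n (sbd n (Finsupp.single σ 1)) =
        Finsupp.single σ 1 - ρ (n + 1) (Finsupp.single σ 1) -
          sbd (n + 1) (D (n + 1) (Finsupp.single σ 1)) := by
      rw [← h5]
      abel
    rw [h6, map_sub, map_sub, ev_sbd, show cob (n + 1) φ = 0 from hφ, ev_zero, ev_single]
    abel
  · dsimp only
    obtain ⟨e1, e2⟩ := h3 n _ (single_mem_supported hσ)
    rw [e1, e2, map_zero, zero_add, ev_single]

/-- A zero-cocycle which vanishes on small simplices is zero. -/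
theorem cocycle_zero_eq_zero (U : ι → Set X) (hc : ⋃ i, U i = Set.univ)
    (φ : Coch 0 X A) (h : ∀ σ ∈ small U 0, φ σ = 0) : φ = 0 := by
  funext σ
  refine h σ ?_
  have : σ (vt 0 0) ∈ ⋃ i, U i := hc ▸ Set.mem_univ _
  obtain ⟨i, hi⟩ := Set.mem_iUnion.mp this
  refine ⟨i, ?_⟩
  rintro _ ⟨x, rfl⟩
  rwa [Subsingleton.elim x (vt 0 0)]

end Cochains

end

end Pool.Agent.Lib.MP_904b2a_gt.H41
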