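import Pool.Agent.Lib.MP_904b2a_gt.H1.Attach
import Pool.Agent.Lib.MP_904b2a_gt.R12
import Pool.Agent.Lib.MP_904b2a_gt.H86.Serre

/-!
# MP_904b2a_gt, module BALL: the cohomology of the pair (ball, sphere) and of the spheres
-/

set_option autoImplicit false

open Metric Set

namespace Pool.Agent.Lib.MP_904b2a_gt.H41

noncomputable section

/-! ### Contractible spaces and base points -/

section Contr

variable {X : Type} [TopologicalSpace X] {A B : Type} [AddCommGroup A] [AddCommGroup B]

theorem pb_const_eq [ContractibleSpace X] (x₀ : X) (n : ℕ) (w : H n X A) :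
    H.pb (ContinuousMap.const X x₀ : C(X, X)) w = w := by
  obtain ⟨y, hy⟩ := id_nullhomotopic X
  have h1 : ∀ u : H n X A, u = H.pb (ContinuousMap.const X y : C(X, X)) u := by
    intro u
    have := H.pb_eq_of_homotopic hy u
    rwa [H.pb_id] at this
  conv_rhs => rw [h1 w]
  conv_lhs => rw [h1 w]
  rw [H.pb_comp]
  rfl

theorem eq_zero_of_point [ContractibleSpace X] (x₀ : X) (n : ℕ) (w : H n X A)
    (hw : H.pb (incl ({x₀} : Set X)) w = 0) : w = 0 := by
  rw [← pb_const_eq x₀ n w]
  let r : C(X, ({x₀} : Set X)) := ContinuousMap.const _ ⟨x₀, rfl⟩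
  have e : (ContinuousMap.const X x₀ : C(X, X)) = (incl ({x₀} : Set X)).comp r := rfl
  rw [e, ← H.pb_comp, hw, map_zero]

/-- The connecting isomorphism of a contractible space and a subset with a base point. -/
def bet (S : Set X) (s₀ : S) (n : ℕ) (A : Type) [AddCommGroup A] :
    HR n ({s₀} : Set S) A →+ HR (n + 1) S A :=
  HR.delta.comp HR.toH

theorem bet_bijective [ContractibleSpace X] (S : Set X) (s₀ : S) (n : ℕ) :
    Function.Bijective (bet S s₀ n A) := by
  constructor
  · rw [injective_iff_map_eq_zero]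
    intro v hv
    obtain ⟨w, hw⟩ := (HR.exact_S (HR.toH v)).mp hv
    have h1 : H.pb (incl ({s₀} : Set S)) (HR.toH v) = 0 := (HR.exact_H _).mpr ⟨v, rfl⟩
    have h2 : w = 0 := by
      apply eq_zero_of_point s₀.1 n w
      let r : C(({s₀.1} : Set X), ({s₀} : Set S)) := ContinuousMap.const _ ⟨s₀, rfl⟩
      have e : incl ({s₀.1} : Set X) = ((incl S).comp (incl ({s₀} : Set S))).comp r := by
        ext y
        exact y.2
      rw [e, ← H.pb_comp, ← H.pb_comp, hw, h1, map_zero]
    have h3 : HR.toH v = 0 := by rw [← hw, h2, map_zero]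
    cases n with
    | zero => exact HR.toH_injective_zero (h3.trans (map_zero _).symm)
    | succ m =>
      obtain ⟨a, rfl⟩ := (HR.exact_R v).mp h3
      rw [HR.exact_S]
      let r : C(S, ({s₀} : Set S)) := ContinuousMap.const _ ⟨s₀, rfl⟩
      have hr : r.comp (incl ({s₀} : Set S)) = ContinuousMap.id _ := by
        ext y
        exact congrArg Subtype.val (y.2).symm
      refine ⟨H.pb r a, ?_⟩
      rw [H.pb_comp, hr, H.pb_id]
  · intro u
    obtain ⟨w, rfl⟩ := (HR.exact_R u).mp (H.eq_zero_of_contractible n _)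
    let c : C(X, S) := ContinuousMap.const _ s₀
    have h1 : H.pb (incl ({s₀} : Set S)) (w - H.pb (incl S) (H.pb c w)) = 0 := by
      rw [map_sub, H.pb_comp, H.pb_comp]
      have e : (c.comp (incl S)).comp (incl ({s₀} : Set S)) = incl ({s₀} : Set S) := by
        ext y
        exact congrArg Subtype.val (y.2).symm
      rw [← ContinuousMap.comp_assoc, e, sub_self]
    obtain ⟨v, hv⟩ := (HR.exact_H _).mp h1
    refine ⟨v, ?_⟩
    change HR.delta (HR.toH v) = HR.delta w
    rw [hv, map_sub, (HR.exact_S (H.pb (incl S) (H.pb c w))).mpr ⟨_, rfl⟩, sub_zero]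

theorem bet_cm (S : Set X) (s₀ : S) (n : ℕ) (g : A →+ B) (v : HR n ({s₀} : Set S) A) :
    bet S s₀ n B (HR.cm g v) = HR.cm g (bet S s₀ n A v) := by
  change HR.delta (HR.toH (HR.cm g v)) = _
  rw [HR.toH_cm, HR.delta_cm]
  rfl

/-- Cohomology relative to a point. -/
theorem toH_bij_point (x₀ : X) (n : ℕ) :
    Function.Bijective (HR.toH (n := n + 1) (S := ({x₀} : Set X)) (A := A)) := by
  let r : C(X, ({x₀} : Set X)) := ContinuousMap.const _ ⟨x₀, rfl⟩
  have hr : r.comp (incl ({x₀} : Set X)) = ContinuousMap.id _ := by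
    ext y
    exact (y.2).symm
  constructor
  · rw [injective_iff_map_eq_zero]
    intro v hv
    obtain ⟨w, rfl⟩ := (HR.exact_R v).mp hv
    rw [HR.exact_S]
    refine ⟨H.pb r w, ?_⟩
    rw [H.pb_comp, hr, H.pb_id]
  · intro u
    apply (HR.exact_H u).mp
    exact H.eq_zero_of_subsingleton n _

/-- Relative cohomology of degree zero vanishes. -/
theorem HR_zero_eq_zero [ContractibleSpace X] (S : Set X) (s₀ : S) (u : HR 0 S A) : u = 0 := by
  apply HR.toH_injective_zero
  rw [map_zero]
  apply eq_zero_of_point s₀.1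
  have h1 : H.pb (incl S) (HR.toH u) = 0 := (HR.exact_H _).mpr ⟨u, rfl⟩
  let r : C(({s₀.1} : Set X), S) := ContinuousMap.const _ s₀
  have e : incl ({s₀.1} : Set X) = (incl S).comp r := by
    ext y
    exact y.2
  rw [e, ← H.pb_comp, h1, map_zero]

end Contr

/-! ### Natural isomorphisms with the coefficients -/

/-- `F` is naturally isomorphic to the identity functor on abelian groups. -/
def NatIso (F : ∀ (A : Type) [AddCommGroup A], Type)
    [∀ (A : Type) [AddCommGroup A], AddCommGroup (F A)]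
    (cm : ∀ (A B : Type) [AddCommGroup A] [AddCommGroup B], (A →+ B) → F A → F B) : Prop :=
  ∃ e : ∀ (A : Type) [AddCommGroup A], F A ≃+ A,
    ∀ (A B : Type) [AddCommGroup A] [AddCommGroup B] (g : A →+ B) (u : F A),
      e B (cm A B g u) = g (e A u)

/-- Transport along a natural bijection `F → G`. -/
theorem NatIso.of_map {F G : ∀ (A : Type) [AddCommGroup A], Type}
    [∀ (A : Type) [AddCommGroup A], AddCommGroup (F A)]
    [∀ (A : Type) [AddCommGroup A], AddCommGroup (G A)]
    {cm : ∀ (A B : Type) [AddCommGroup A] [AddCommGroup B], (A →+ B) → F A → F B}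
    {cm' : ∀ (A B : Type) [AddCommGroup A] [AddCommGroup B], (A →+ B) → G A → G B}
    (β : ∀ (A : Type) [AddCommGroup A], F A →+ G A)
    (hβ : ∀ (A : Type) [AddCommGroup A], Function.Bijective (β A))
    (hn : ∀ (A B : Type) [AddCommGroup A] [AddCommGroup B] (g : A →+ B) (u : F A),
      β B (cm A B g u) = cm' A B g (β A u)) (h : NatIso F cm) : NatIso G cm' := by
  obtain ⟨e, he⟩ := h
  refine ⟨fun A _ => (AddEquiv.ofBijective (β A) (hβ A)).symm.trans (e A), ?_⟩
  intro A B _ _ g u
  obtain ⟨v, rfl⟩ := (hβ A).2 u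
  change e B ((AddEquiv.ofBijective (β B) (hβ B)).symm (cm' A B g (β A v))) =
    g (e A ((AddEquiv.ofBijective (β A) (hβ A)).symm (β A v)))
  rw [← hn]
  have h1 : ∀ (A : Type) [AddCommGroup A] (x : F A),
      (AddEquiv.ofBijective (β A) (hβ A)).symm (β A x) = x := fun A _ x =>
    (AddEquiv.ofBijective (β A) (hβ A)).symm_apply_apply x
  rw [h1, h1, he]

/-- Transport along a natural bijection `G → F`. -/
theorem NatIso.of_map' {F G : ∀ (A : Type) [AddCommGroup A], Type}
    [∀ (A : Type) [AddCommGroup A], AddCommGroup (F A)]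
    [∀ (A : Type) [AddCommGroup A], AddCommGroup (G A)]
    {cm : ∀ (A B : Type) [AddCommGroup A] [AddCommGroup B], (A →+ B) → F A → F B}
    {cm' : ∀ (A B : Type) [AddCommGroup A] [AddCommGroup B], (A →+ B) → G A → G B}
    (β : ∀ (A : Type) [AddCommGroup A], G A →+ F A)
    (hβ : ∀ (A : Type) [AddCommGroup A], Function.Bijective (β A))
    (hn : ∀ (A B : Type) [AddCommGroup A] [AddCommGroup B] (g : A →+ B) (u : G A),
      β B (cm' A B g u) = cm A B g (β A u)) (h : NatIso F cm) : NatIso G cm' := by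
  obtain ⟨e, he⟩ := h
  refine ⟨fun A _ => (AddEquiv.ofBijective (β A) (hβ A)).trans (e A), ?_⟩
  intro A B _ _ g u
  change e B (β B (cm' A B g u)) = g (e A (β A u))
  rw [hn, he]

/-! ### Homeomorphisms of spheres -/

/-- The unit spheres of two norms are homeomorphic. -/
def radHomeo {E F : Type} [NormedAddCommGroup E] [NormedAddCommGroup F] [NormedSpace ℝ E]
    [NormedSpace ℝ F] (e : E ≃L[ℝ] F) : sphere (0 : E) 1 ≃ₜ sphere (0 : F) 1 :=
  have hE : ∀ x : sphere (0 : E) 1, x.1 ≠ 0 := fun x h => by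
    have := mem_sphere_zero_iff_norm.mp x.2
    rw [h, norm_zero] at this
    exact zero_ne_one this
  have hF : ∀ x : sphere (0 : F) 1, x.1 ≠ 0 := fun x h => by
    have := mem_sphere_zero_iff_norm.mp x.2
    rw [h, norm_zero] at this
    exact zero_ne_one this
  have hE' : ∀ x : sphere (0 : E) 1, ‖e x.1‖ ≠ 0 := fun x => by
    rw [norm_ne_zero_iff]
    simpa using hE x
  have hF' : ∀ x : sphere (0 : F) 1, ‖e.symm x.1‖ ≠ 0 := fun x => by
    rw [norm_ne_zero_iff]
    simpa using hF x
  { toFun := fun x => ⟨‖e x.1‖⁻¹ • e x.1, by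
      rw [mem_sphere_zero_iff_norm, norm_smul, norm_inv, norm_norm, inv_mul_cancel₀ (hE' x)]⟩
    invFun := fun y => ⟨‖e.symm y.1‖⁻¹ • e.symm y.1, by
      rw [mem_sphere_zero_iff_norm, norm_smul, norm_inv, norm_norm, inv_mul_cancel₀ (hF' y)]⟩
    left_inv := fun x => by
      apply Subtype.ext
      change ‖e.symm (‖e x.1‖⁻¹ • e x.1)‖⁻¹ • e.symm (‖e x.1‖⁻¹ • e x.1) = x.1
      rw [map_smul, e.symm_apply_apply, norm_smul, norm_inv, norm_norm,
        mem_sphere_zero_iff_norm.mp x.2, mul_one, inv_inv, smul_smul, mul_inv_cancel₀ (hE' x),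
        one_smul]
    right_inv := fun y => by
      apply Subtype.ext
      change ‖e (‖e.symm y.1‖⁻¹ • e.symm y.1)‖⁻¹ • e (‖e.symm y.1‖⁻¹ • e.symm y.1) = y.1
      rw [map_smul, e.apply_symm_apply, norm_smul, norm_inv, norm_norm,
        mem_sphere_zero_iff_norm.mp y.2, mul_one, inv_inv, smul_smul, mul_inv_cancel₀ (hF' y),
        one_smul]
    continuous_toFun := by
      refine Continuous.subtype_mk ?_ _
      have h1 : Continuous (fun x : sphere (0 : E) 1 => e x.1) :=
        e.continuous.comp continuous_subtype_val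
      exact (h1.norm.inv₀ hE').smul h1
    continuous_invFun := by
      refine Continuous.subtype_mk ?_ _
      have h1 : Continuous (fun x : sphere (0 : F) 1 => e.symm x.1) :=
        e.symm.continuous.comp continuous_subtype_val
      exact (h1.norm.inv₀ hF').smul h1 }

/-- The two models of the `k`-sphere. -/
def sbHomeo (k : ℕ) : ES k ≃ₜ SB (k + 1) :=
  radHomeo (EuclideanSpace.equiv (Fin (k + 1)) ℝ)

/-! ### The pair (ball, sphere) -/

instance (k : ℕ) : ContractibleSpace (CB k) :=
  (convex_closedBall (0 : Fin k → ℝ) 1).contractibleSpace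
    ⟨0, mem_closedBall_self zero_le_one⟩

/-- The cohomology of the pair `(D^k, S^{k-1})`. -/
def BallFor (k : ℕ) : Prop :=
  (∀ m : ℕ, m ≠ k → ∀ (A : Type) [AddCommGroup A] (u : HR m (bSB k) A), u = 0) ∧
    NatIso (fun A _ => HR k (bSB k) A) (fun _ _ _ _ g u => HR.cm g u)

/-- The base point of `bSB (k + 1)` and of `ES k`. -/
def pt (k : ℕ) : ES k := ⟨EuclideanSpace.single 0 1, by simp⟩

def bsHomeo (k : ℕ) : ES k ≃ₜ ↥(bSB (k + 1)) := (sbHomeo k).trans (bSBhomeo (k + 1)).symm

def bpt (k : ℕ) : ↥(bSB (k + 1)) := bsHomeo k (pt k)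

/-- From the sphere with base point to the ball of the same dimension. -/
def gam {k : ℕ} (c : CellAttach k (ES k) {pt k} Unit) (m : ℕ) (A : Type) [AddCommGroup A] :
    HR m ({pt k} : Set (ES k)) A →+ HR m (bSB k) A :=
  HR.pb (c.χ ()) (c.mapsTo ())

theorem gam_bijective {k : ℕ} (c : CellAttach k (ES k) {pt k} Unit) (m : ℕ) (A : Type)
    [AddCommGroup A] : Function.Bijective (gam c m A) := by
  have h := catStatement k (ES k) {pt k} Unit c A m
  have h2 : Function.Bijective (fun f : Unit → HR m (bSB k) A => f ()) :=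
    (Equiv.funUnique Unit _).bijective
  exact h2.comp h

theorem bs_maps (k : ℕ) : MapsTo ((bsHomeo k : C(ES k, ↥(bSB (k + 1))))) {pt k} {bpt k} := by
  rintro _ rfl
  rfl

theorem bs_maps' (k : ℕ) :
    MapsTo (((bsHomeo k).symm : C(↥(bSB (k + 1)), ES k))) {bpt k} {pt k} := by
  rintro _ rfl
  exact (bsHomeo k).symm_apply_apply (pt k)

/-- From the boundary sphere to the Euclidean sphere. -/
def del (k m : ℕ) (A : Type) [AddCommGroup A] :
    HR m ({bpt k} : Set ↥(bSB (k + 1))) A →+ HR m ({pt k} : Set (ES k)) A :=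
  HR.pb (bsHomeo k : C(ES k, ↥(bSB (k + 1)))) (bs_maps k)

theorem del_bijective (k m : ℕ) (A : Type) [AddCommGroup A] :
    Function.Bijective (del k m A) :=
  HR.pb_bijective_of_homeomorph (bsHomeo k) (bs_maps k) (bs_maps' k)

theorem ball_zero : BallFor 0 := by
  have hS : bSB 0 = ∅ := by
    ext x
    have h : x.1 = 0 := Subsingleton.elim _ _
    simp only [bSB, mem_ofPred_eq, h, norm_zero, mem_empty_iff_false, iff_false]
    exact zero_ne_one
  have hb : ∀ (m : ℕ) (A : Type) [AddCommGroup A],
      Function.Bijective (HR.toH (n := m) (S := bSB 0) (A := A)) :=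
    fun m A _ => HR.toH_bijective_of_empty hS
  constructor
  · intro m hm A _ u
    cases m with
    | zero => exact absurd rfl hm
    | succ m =>
      apply (hb (m + 1) A).1
      rw [map_zero]
      exact H.eq_zero_of_contractible m _
  · let ε : ∀ (A : Type) [AddCommGroup A], A →+ H 0 (CB 0) A := fun A _ =>
      { toFun := fun a => H.const (CB 0) a
        map_zero' := H.const_zero
        map_add' := H.const_add }
    have hε : ∀ (A : Type) [AddCommGroup A], Function.Bijective (ε A) := by
      intro A _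
      constructor
      · rw [injective_iff_map_eq_zero]
        intro a ha
        have h1 := H.mk_eq_zero.mp ha
        exact congrFun h1 (ContinuousMap.const _ 0)
      · intro u
        obtain ⟨z, rfl⟩ := H.mk_surjective 0 u
        refine ⟨(z : Coch 0 (CB 0) A) (ContinuousMap.const _ 0), ?_⟩
        change H.mk 0 _ = H.mk 0 z
        congr 1
        apply Subtype.ext
        funext σ
        exact congrArg (z : Coch 0 (CB 0) A) (ContinuousMap.ext (fun t => Subsingleton.elim _ _))
    have h1 : NatIso (fun A _ => H 0 (CB 0) A) (fun _ _ _ _ g u => H.cm g u) := by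
      refine ⟨fun A _ => (AddEquiv.ofBijective (ε A) (hε A)).symm, ?_⟩
      intro A B _ _ g u
      obtain ⟨a, rfl⟩ := (hε A).2 u
      change (AddEquiv.ofBijective (ε B) (hε B)).symm (ε B (g a)) =
        g ((AddEquiv.ofBijective (ε A) (hε A)).symm (ε A a))
      have h1 : ∀ (A : Type) [AddCommGroup A] (x : A),
          (AddEquiv.ofBijective (ε A) (hε A)).symm (ε A x) = x := fun A _ x =>
        (AddEquiv.ofBijective (ε A) (hε A)).symm_apply_apply x
      rw [h1, h1]
    exact h1.of_map' (fun A _ => HR.toH) (fun A _ => hb 0 A) (fun A B _ _ g u => HR.toH_cm g u)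

theorem ball_succ (hcell : ∀ k : ℕ, Nonempty (CellAttach k (ES k) {pt k} Unit)) {k : ℕ}
    (h : BallFor k) : BallFor (k + 1) := by
  obtain ⟨c⟩ := hcell k
  constructor
  · intro m hm A _ u
    cases m with
    | zero => exact HR_zero_eq_zero (bSB (k + 1)) (bpt k) u
    | succ m =>
      obtain ⟨v, rfl⟩ := (bet_bijective (A := A) (bSB (k + 1)) (bpt k) m).2 u
      have h1 : v = 0 := by
        apply (del_bijective k m A).1
        apply (gam_bijective c m A).1
        rw [map_zero, map_zero]
        exact h.1 m (by omega) A _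
      rw [h1, map_zero]
  · have h1 := h.2
    have h2 : NatIso (fun A _ => HR k ({pt k} : Set (ES k)) A) (fun _ _ _ _ g u => HR.cm g u) :=
      h1.of_map' (fun A _ => gam c k A) (fun A _ => gam_bijective c k A)
        (fun A B _ _ g u => HR.pb_cm _ g _ u)
    have h3 : NatIso (fun A _ => HR k ({bpt k} : Set ↥(bSB (k + 1))) A)
        (fun _ _ _ _ g u => HR.cm g u) :=
      h2.of_map' (fun A _ => del k k A) (fun A _ => del_bijective k k A)
        (fun A B _ _ g u => HR.pb_cm _ g _ u)
    exact h3.of_map (fun A _ => bet (bSB (k + 1)) (bpt k) k A)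
      (fun A _ => bet_bijective (A := A) (bSB (k + 1)) (bpt k) k)
      (fun A B _ _ g u => bet_cm (bSB (k + 1)) (bpt k) k g u)

theorem ballStatement_of (SC : SphereCellStatement) : BallStatement := by
  intro k
  induction k with
  | zero => exact ball_zero
  | succ k ih => exact ball_succ (fun k => SC k (pt k)) ih

/-! ### The cohomology of the spheres -/

theorem isCohSphere_ES (SC : SphereCellStatement) (k : ℕ) (hk : 1 ≤ k) :
    IsCohSphere k (ES k) := by
  obtain ⟨c⟩ := SC k (pt k)
  have hB := ballStatement_of SC k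
  constructor
  · intro A _ m hm hmk u
    obtain ⟨m, rfl⟩ : ∃ m', m = m' + 1 := ⟨m - 1, by omega⟩
    obtain ⟨v, rfl⟩ := (toH_bij_point (A := A) (pt k) m).2 u
    have h1 : v = 0 := by
      apply (gam_bijective c (m + 1) A).1
      rw [map_zero]
      exact hB.1 (m + 1) hmk A _
    rw [h1, map_zero]
  · obtain ⟨k, rfl⟩ : ∃ k', k = k' + 1 := ⟨k - 1, by omega⟩
    have h1 : NatIso (fun A _ => HR (k + 1) (bSB (k + 1)) A) (fun _ _ _ _ g u => HR.cm g u) :=
      hB.2
    have h2 : NatIso (fun A _ => HR (k + 1) ({pt (k + 1)} : Set (ES (k + 1))) A)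
        (fun _ _ _ _ g u => HR.cm g u) :=
      h1.of_map' (fun A _ => gam c (k + 1) A) (fun A _ => gam_bijective c (k + 1) A)
        (fun A B _ _ g u => HR.pb_cm _ g _ u)
    exact h2.of_map (F := fun A _ => HR (k + 1) ({pt (k + 1)} : Set (ES (k + 1))) A)
      (G := fun A _ => H (k + 1) (ES (k + 1)) A) (cm' := fun _ _ _ _ g u => H.cm g u)
      (fun A _ => HR.toH)
      (fun A _ => toH_bij_point (A := A) (pt (k + 1)) k)
      (fun A B _ _ g u => HR.toH_cm g u)

theorem IsCohSphere.of_homeomorph {k : ℕ} {S T : Type} [TopologicalSpace S] [TopologicalSpace T]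
    (e : S ≃ₜ T) (h : IsCohSphere k T) : IsCohSphere k S := by
  have hb : ∀ (m : ℕ) (A : Type) [AddCommGroup A],
      Function.Bijective (H.pb (n := m) (A := A) (e : C(S, T))) :=
    fun m A _ => H.pb_bijective_of_homeomorph e
  constructor
  · intro A _ m hm hmk u
    obtain ⟨v, rfl⟩ := (hb m A).2 u
    rw [h.vanish A m hm hmk v, map_zero]
  · have h1 : NatIso (fun A _ => H k T A) (fun _ _ _ _ g u => H.cm g u) := h.top
    exact h1.of_map (F := fun A _ => H k T A)
      (G := fun A _ => H k S A) (cm' := fun _ _ _ _ g u => H.cm g u)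
      (fun A _ => H.pb (e : C(S, T))) (fun A _ => hb k A)
      (fun A B _ _ g u => H.pb_cm _ g u)

theorem sphereCohStatement_of (SC : SphereCellStatement) : SphereCohStatement := by
  constructor
  · intro k hk
    exact ⟨isCohSphere_ES SC k hk, IsCohSphere.of_homeomorph (sbHomeo k).symm
      (isCohSphere_ES SC k hk)⟩
  · intro i hi
    obtain ⟨e⟩ := H86.exists_sphHomeo i hi
    exact IsCohSphere.of_homeomorph e (isCohSphere_ES SC (2 * i - 1) (by omega))

end

end Pool.Agent.Lib.MP_904b2a_gt.H41
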