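import Pool.Agent.Lib.MP_904b2a_gt.Defs

/-!
# MP_904b2a_gt, module SING-2, part 1: chains of tuples, cones and barycentric subdivision

Everything here is purely algebraic: `A` is a set of points, an `n`-simplex is a tuple
`Fin (n+1) → A`, and `b` is an arbitrary function which assigns a point to every tuple.
-/

open scoped BigOperators

namespace Pool.Agent.Lib.MP_904b2a_gt.H41

noncomputable section

/-! ## Boundaries for a family of sets with faces -/

section Gen

variable {α : ℕ → Type*} (f : ∀ n, ℕ → α (n + 1) → α n)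

/-- The boundary operator on formal linear combinations. -/
def gbd (n : ℕ) : (α (n + 1) →₀ ℤ) →ₗ[ℤ] (α n →₀ ℤ) :=
  Finsupp.linearCombination ℤ
    (fun a => ∑ i ∈ Finset.range (n + 2), (-1 : ℤ) ^ i • Finsupp.single (f n i a) (1 : ℤ))

theorem gbd_single (n : ℕ) (a : α (n + 1)) :
    gbd f n (Finsupp.single a 1) =
      ∑ i ∈ Finset.range (n + 2), (-1 : ℤ) ^ i • Finsupp.single (f n i a) (1 : ℤ) := by
  simp [gbd]

theorem gbd_gbd_single (hf : ∀ n i j (x : α (n + 2)), i ≤ j → j ≤ n + 1 →
    f n i (f (n + 1) (j + 1) x) = f n j (f (n + 1) i x)) (n : ℕ) (a : α (n + 2)) :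
    gbd f n (gbd f (n + 1) (Finsupp.single a 1)) = 0 := by
  rw [gbd_single, map_sum]
  simp only [map_smul, gbd_single, Finset.smul_sum, smul_smul]
  rw [← Finset.sum_product' (f := fun j i => ((-1 : ℤ) ^ j * (-1 : ℤ) ^ i) •
    Finsupp.single (f n i (f (n + 1) j a)) (1 : ℤ))]
  refine Finset.sum_involution
    (fun p _ => if p.2 < p.1 then (p.2, p.1 - 1) else (p.2 + 1, p.1)) ?_ ?_ ?_ ?_
  · rintro ⟨j, i⟩ hp
    simp only [Finset.mem_product, Finset.mem_range] at hp
    dsimp only
    split_ifs with h
    · obtain ⟨j, rfl⟩ : ∃ j', j = j' + 1 := ⟨j - 1, by omega⟩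
      rw [Nat.add_sub_cancel, ← hf n i j a (by omega) (by omega), ← add_smul]
      rw [show ((-1 : ℤ) ^ (j + 1) * (-1) ^ i + (-1) ^ i * (-1) ^ j) = 0 by ring, zero_smul]
    · rw [hf n j i a (by omega) (by omega), ← add_smul]
      rw [show ((-1 : ℤ) ^ j * (-1) ^ i + (-1) ^ (i + 1) * (-1) ^ j) = 0 by ring, zero_smul]
  · rintro ⟨j, i⟩ hp _
    dsimp only
    split_ifs with h
    · simp only [ne_eq, Prod.mk.injEq, not_and]
      omega
    · simp only [ne_eq, Prod.mk.injEq, not_and]
      omega
  · rintro ⟨j, i⟩ hp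
    simp only [Finset.mem_product, Finset.mem_range] at hp ⊢
    split_ifs with h
    · simp only; omega
    · simp only; omega
  · rintro ⟨j, i⟩ hp
    simp only [Finset.mem_product, Finset.mem_range] at hp
    by_cases h : i < j
    · simp only [h, if_true]
      rw [if_neg (by omega)]
      exact Prod.ext (Nat.sub_add_cancel (by omega)) rfl
    · simp only [h, if_false]
      rw [if_pos (by omega)]
      ext <;> simp

theorem gbd_gbd (hf : ∀ n i j (x : α (n + 2)), i ≤ j → j ≤ n + 1 →
    f n i (f (n + 1) (j + 1) x) = f n j (f (n + 1) i x)) (n : ℕ) (c : α (n + 2) →₀ ℤ) :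
    gbd f n (gbd f (n + 1) c) = 0 := by
  have : (gbd f n).comp (gbd f (n + 1)) = 0 := by
    refine Finsupp.lhom_ext' fun a => LinearMap.ext_ring ?_
    exact gbd_gbd_single f hf n a
  exact LinearMap.congr_fun this c

end Gen

/-- Two linear maps on formal linear combinations agree if they agree on the basis. -/
theorem lext {α : Type*} {M : Type*} [AddCommGroup M] {f g : (α →₀ ℤ) →ₗ[ℤ] M}
    (h : ∀ a, f (Finsupp.single a 1) = g (Finsupp.single a 1)) : f = g :=
  Finsupp.lhom_ext' fun a => LinearMap.ext_ring (h a)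

/-- Linear maps preserve submodules if they do so on the basis. -/
theorem mem_of_supported {α : Type*} {M : Type*} [AddCommGroup M] (f : (α →₀ ℤ) →ₗ[ℤ] M)
    {S : Set α} {P : Submodule ℤ M} (h : ∀ a ∈ S, f (Finsupp.single a 1) ∈ P)
    {c : α →₀ ℤ} (hc : c ∈ Finsupp.supported ℤ ℤ S) : f c ∈ P := by
  have e : c = ∑ a ∈ c.support, c a • Finsupp.single a (1 : ℤ) := by
    conv_lhs => rw [← Finsupp.sum_single c]
    rw [Finsupp.sum]
    refine Finset.sum_congr rfl fun a _ => ?_
    rw [Finsupp.smul_single, smul_eq_mul, mul_one]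
  rw [e, map_sum]
  refine Submodule.sum_mem _ fun a ha => ?_
  rw [map_smul]
  exact Submodule.smul_mem _ _ (h a (Finsupp.mem_supported _ _ |>.mp hc ha))

theorem single_mem_supported {α : Type*} {S : Set α} {a : α} (h : a ∈ S) :
    Finsupp.single a (1 : ℤ) ∈ Finsupp.supported ℤ ℤ S :=
  Finsupp.single_mem_supported ℤ (1 : ℤ) h

/-! ## Tuples -/

theorem fv_comp (n i j : ℕ) (hij : i ≤ j) (_ : j ≤ n + 1) :
    fv (n + 1) (j + 1) ∘ fv n i = fv (n + 1) i ∘ fv n j := by
  funext k
  apply Fin.ext
  simp only [Function.comp, fv_val]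
  grind

variable {A A' : Type*}

/-- Formal combinations of tuples. -/
abbrev L (A : Type*) (n : ℕ) := (Fin (n + 1) → A) →₀ ℤ

/-- The boundary of tuples. -/
def tbd (A : Type*) (n : ℕ) : L A (n + 1) →ₗ[ℤ] L A n :=
  gbd (α := fun n => Fin (n + 1) → A) (fun n i w => w ∘ fv n i) n

theorem tbd_single (n : ℕ) (w : Fin (n + 2) → A) :
    tbd A n (Finsupp.single w 1) =
      ∑ i ∈ Finset.range (n + 2), (-1 : ℤ) ^ i • Finsupp.single (w ∘ fv n i) (1 : ℤ) :=
  gbd_single (α := fun n => Fin (n + 1) → A) (fun n i w => w ∘ fv n i) n w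

theorem tbd_tbd (n : ℕ) (c : L A (n + 2)) : tbd A n (tbd A (n + 1) c) = 0 := by
  refine gbd_gbd (α := fun n => Fin (n + 1) → A) _ ?_ n c
  intro n i j x hij hj
  rw [Function.comp_assoc, Function.comp_assoc, fv_comp n i j hij hj]

/-- The map induced on tuples by a map of the sets of points. -/
def push (φ : A → A') (n : ℕ) : L A n →ₗ[ℤ] L A' n :=
  Finsupp.lmapDomain ℤ ℤ (fun w => φ ∘ w)

theorem push_single (φ : A → A') (n : ℕ) (w : Fin (n + 1) → A) :
    push φ n (Finsupp.single w 1) = Finsupp.single (φ ∘ w) 1 := by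
  simp [push]

theorem push_tbd (φ : A → A') (n : ℕ) (c : L A (n + 1)) :
    push φ n (tbd A n c) = tbd A' n (push φ (n + 1) c) := by
  have : (push φ n).comp (tbd A n) = (tbd A' n).comp (push φ (n + 1)) := by
    refine lext fun w => ?_
    simp only [LinearMap.comp_apply, tbd_single, push_single, map_sum, map_smul,
      Function.comp_assoc]
  exact LinearMap.congr_fun this c

/-- The cone with vertex `b`. -/
def cone (b : A) (n : ℕ) : L A n →ₗ[ℤ] L A (n + 1) :=
  Finsupp.lmapDomain ℤ ℤ (fun w => (Fin.cons b w : Fin (n + 2) → A))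

theorem cone_single (b : A) (n : ℕ) (w : Fin (n + 1) → A) :
    cone b n (Finsupp.single w 1) = Finsupp.single (Fin.cons b w : Fin (n + 2) → A) 1 := by
  simp [cone]

theorem push_cone (φ : A → A') (b : A) (n : ℕ) (c : L A n) :
    push φ (n + 1) (cone b n c) = cone (φ b) n (push φ n c) := by
  have : (push φ (n + 1)).comp (cone b n) = (cone (φ b) n).comp (push φ n) := by
    refine lext fun w => ?_
    simp only [LinearMap.comp_apply, cone_single, push_single]
    congr 1
    funext k
    refine Fin.cases ?_ (fun k => ?_) k <;> simp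
  exact LinearMap.congr_fun this c

theorem cons_fv_zero (b : A) (n : ℕ) (w : Fin (n + 1) → A) :
    (Fin.cons b w : Fin (n + 2) → A) ∘ fv n 0 = w := by
  funext k
  simp [fv]

theorem cons_fv_succ (b : A) (n i : ℕ) (w : Fin (n + 2) → A) :
    (Fin.cons b w : Fin (n + 3) → A) ∘ fv (n + 1) (i + 1) =
      (Fin.cons b (w ∘ fv n i) : Fin (n + 2) → A) := by
  funext k
  refine Fin.cases ?_ (fun k => ?_) k
  · simp [fv]
  · simp only [Function.comp, Fin.cons_succ]
    have : fv (n + 1) (i + 1) k.succ = (fv n i k).succ := by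
      apply Fin.ext
      simp only [fv_val, Fin.val_succ]
      grind
    rw [this, Fin.cons_succ]

theorem tbd_cone (b : A) (n : ℕ) (c : L A (n + 1)) :
    tbd A (n + 1) (cone b (n + 1) c) = c - cone b n (tbd A n c) := by
  have : (tbd A (n + 1)).comp (cone b (n + 1)) = LinearMap.id - (cone b n).comp (tbd A n) := by
    refine lext fun w => ?_
    simp only [LinearMap.comp_apply, LinearMap.sub_apply, LinearMap.id_apply, cone_single,
      tbd_single, map_sum, map_smul]
    rw [Finset.sum_range_succ', cons_fv_zero]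
    simp only [cons_fv_succ, pow_succ, pow_zero, one_smul]
    simp only [mul_neg_one, neg_smul, Finset.sum_neg_distrib]
    abel
  exact LinearMap.congr_fun this c

/-- The augmentation. -/
def aug (A : Type*) : L A 0 →ₗ[ℤ] ℤ := Finsupp.linearCombination ℤ (fun _ => (1 : ℤ))

theorem aug_single (w : Fin 1 → A) : aug A (Finsupp.single w 1) = 1 := by simp [aug]

theorem aug_tbd (c : L A 1) : aug A (tbd A 0 c) = 0 := by
  have : (aug A).comp (tbd A 0) = 0 := by
    refine lext fun w => ?_
    simp [tbd_single, aug_single, Finset.sum_range_succ]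
  exact LinearMap.congr_fun this c

theorem tbd_cone_zero (b : A) (c : L A 0) :
    tbd A 0 (cone b 0 c) = c - aug A c • Finsupp.single (fun _ => b) (1 : ℤ) := by
  have : (tbd A 0).comp (cone b 0) = LinearMap.id -
      (LinearMap.toSpanSingleton ℤ (L A 0) (Finsupp.single (fun _ => b) (1 : ℤ))).comp
        (aug A) := by
    refine lext fun w => ?_
    simp only [LinearMap.comp_apply, LinearMap.sub_apply, LinearMap.id_apply, cone_single,
      tbd_single, aug_single, LinearMap.toSpanSingleton_apply, one_smul]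
    rw [Finset.sum_range_succ, Finset.sum_range_one, pow_zero, one_smul, pow_one, neg_smul,
      one_smul, cons_fv_zero, ← sub_eq_add_neg]
    congr 2
    funext k
    have : k = 0 := Fin.fin_one_eq_zero k
    subst this
    simp [fv]
  exact LinearMap.congr_fun this c

/-! ## Subdivision -/

section Subdivision

variable (b : ∀ n, (Fin (n + 1) → A) → A)

/-- Barycentric subdivision of tuples. -/
def Sd : ∀ n, L A n →ₗ[ℤ] L A n
  | 0 => LinearMap.id
  | (n + 1) => Finsupp.linearCombination ℤ
      (fun w => cone (b (n + 1) w) n (Sd n (tbd A n (Finsupp.single w 1))))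

theorem Sd_zero (c : L A 0) : Sd b 0 c = c := rfl

theorem Sd_succ (n : ℕ) (w : Fin (n + 2) → A) :
    Sd b (n + 1) (Finsupp.single w 1) =
      cone (b (n + 1) w) n (Sd b n (tbd A n (Finsupp.single w 1))) := by
  rw [Sd, Finsupp.linearCombination_single, one_smul]

theorem tbd_Sd : ∀ (n : ℕ) (c : L A (n + 1)), tbd A n (Sd b (n + 1) c) = Sd b n (tbd A n c)
  | 0, c => by
    have : (tbd A 0).comp (Sd b 1) = (Sd b 0).comp (tbd A 0) := by
      refine lext fun w => ?_
      rw [LinearMap.comp_apply, LinearMap.comp_apply, Sd_succ, tbd_cone_zero]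
      rw [Sd_zero, aug_tbd, zero_smul, sub_zero]
    exact LinearMap.congr_fun this c
  | (n + 1), c => by
    have : (tbd A (n + 1)).comp (Sd b (n + 2)) = (Sd b (n + 1)).comp (tbd A (n + 1)) := by
      refine lext fun w => ?_
      rw [LinearMap.comp_apply, LinearMap.comp_apply, Sd_succ, tbd_cone, tbd_Sd n, tbd_tbd,
        map_zero, map_zero, sub_zero]
    exact LinearMap.congr_fun this c

/-- The chain homotopy between subdivision and the identity. -/
def Th : ∀ n, L A n →ₗ[ℤ] L A (n + 1)
  | 0 => 0
  | (n + 1) => Finsupp.linearCombination ℤ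
      (fun w => cone (b (n + 1) w) (n + 1)
        (Finsupp.single w 1 - Th n (tbd A n (Finsupp.single w 1))))

theorem Th_zero (c : L A 0) : Th b 0 c = 0 := rfl

theorem Th_succ (n : ℕ) (w : Fin (n + 2) → A) :
    Th b (n + 1) (Finsupp.single w 1) =
      cone (b (n + 1) w) (n + 1)
        (Finsupp.single w 1 - Th b n (tbd A n (Finsupp.single w 1))) := by
  rw [Th, Finsupp.linearCombination_single, one_smul]

theorem tbd_Th_zero (c : L A 0) : tbd A 0 (Th b 0 c) = c - Sd b 0 c := by
  rw [Th_zero, map_zero, Sd_zero, sub_self]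

theorem tbd_Th : ∀ (n : ℕ) (c : L A (n + 1)),
    tbd A (n + 1) (Th b (n + 1) c) + Th b n (tbd A n c) = c - Sd b (n + 1) c
  | 0, c => by
    have : (tbd A 1).comp (Th b 1) + (Th b 0).comp (tbd A 0) = LinearMap.id - Sd b 1 := by
      refine lext fun w => ?_
      simp only [LinearMap.add_apply, LinearMap.sub_apply, LinearMap.comp_apply,
        LinearMap.id_apply]
      rw [Th_succ, Sd_succ, tbd_cone, Th_zero, sub_zero, add_zero, Sd_zero]
    exact LinearMap.congr_fun this c
  | (n + 1), c => by
    have : (tbd A (n + 2)).comp (Th b (n + 2)) + (Th b (n + 1)).comp (tbd A (n + 1)) =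
        LinearMap.id - Sd b (n + 2) := by
      refine lext fun w => ?_
      simp only [LinearMap.add_apply, LinearMap.sub_apply, LinearMap.comp_apply,
        LinearMap.id_apply]
      rw [Th_succ, Sd_succ, tbd_cone]
      have h := tbd_Th n (tbd A (n + 1) (Finsupp.single w 1))
      rw [tbd_tbd, map_zero, add_zero] at h
      rw [map_sub, h]
      rw [sub_sub_cancel]
      abel
    exact LinearMap.congr_fun this c

/-! Naturality -/

variable (b' : ∀ n, (Fin (n + 1) → A') → A') (φ : A → A')
    (hφ : ∀ n w, φ (b n w) = b' n (φ ∘ w))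

include hφ in
theorem push_Sd : ∀ (n : ℕ) (c : L A n), push φ n (Sd b n c) = Sd b' n (push φ n c)
  | 0, c => rfl
  | (n + 1), c => by
    have : (push φ (n + 1)).comp (Sd b (n + 1)) = (Sd b' (n + 1)).comp (push φ (n + 1)) := by
      refine lext fun w => ?_
      rw [LinearMap.comp_apply, LinearMap.comp_apply, push_single, Sd_succ, Sd_succ, push_cone,
        push_Sd n, push_tbd, push_single, hφ]
    exact LinearMap.congr_fun this c

include hφ in
theorem push_Th : ∀ (n : ℕ) (c : L A n), push φ (n + 1) (Th b n c) = Th b' n (push φ n c)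
  | 0, c => by rw [Th_zero, Th_zero, map_zero]
  | (n + 1), c => by
    have : (push φ (n + 2)).comp (Th b (n + 1)) = (Th b' (n + 1)).comp (push φ (n + 1)) := by
      refine lext fun w => ?_
      rw [LinearMap.comp_apply, LinearMap.comp_apply, push_single, Th_succ, Th_succ, push_cone,
        map_sub, push_Th n, push_tbd, push_single, hφ]
    exact LinearMap.congr_fun this c

end Subdivision

end

end Pool.Agent.Lib.MP_904b2a_gt.H41
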