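import Pool.Agent.Lib.MP_904b2a_gt.H41.Lin

/-!
# MP_904b2a_gt, module SING-2, part 3: subdivision of singular chains
-/

open scoped BigOperators

namespace Pool.Agent.Lib.MP_904b2a_gt.H41

noncomputable section

variable {X Y : Type*} [TopologicalSpace X] [TopologicalSpace Y]

/-- Singular chains. -/
abbrev Ch (n : ℕ) (X : Type*) [TopologicalSpace X] := C(Simp n, X) →₀ ℤ

/-- The singular boundary. -/
def sbd (n : ℕ) : Ch (n + 1) X →ₗ[ℤ] Ch n X :=
  gbd (α := fun n => C(Simp n, X)) (fun n i σ => σ.comp (smap (fv n i))) n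

theorem sbd_single (n : ℕ) (σ : C(Simp (n + 1), X)) :
    sbd n (Finsupp.single σ 1) =
      ∑ i ∈ Finset.range (n + 2), (-1 : ℤ) ^ i •
        Finsupp.single (σ.comp (smap (fv n i))) (1 : ℤ) :=
  gbd_single (α := fun n => C(Simp n, X)) (fun n i σ => σ.comp (smap (fv n i))) n σ

theorem sbd_sbd (n : ℕ) (c : Ch (n + 2) X) : sbd n (sbd (n + 1) c) = 0 := by
  refine gbd_gbd (α := fun n => C(Simp n, X)) _ ?_ n c
  intro n i j x hij hj
  rw [ContinuousMap.comp_assoc, ContinuousMap.comp_assoc, smap_comp, smap_comp,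
    fv_comp n i j hij hj]

/-- The map induced on chains by a continuous map. -/
def chm (g : C(X, Y)) (n : ℕ) : Ch n X →ₗ[ℤ] Ch n Y :=
  Finsupp.lmapDomain ℤ ℤ (fun σ => g.comp σ)

theorem chm_single (g : C(X, Y)) (n : ℕ) (σ : C(Simp n, X)) :
    chm g n (Finsupp.single σ 1) = Finsupp.single (g.comp σ) 1 := by
  simp [chm]

theorem chm_sbd (g : C(X, Y)) (n : ℕ) (c : Ch (n + 1) X) :
    chm g n (sbd n c) = sbd n (chm g (n + 1) c) := by
  have : (chm g n).comp (sbd n) = (sbd n).comp (chm g (n + 1)) := by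
    refine lext fun σ => ?_
    simp only [LinearMap.comp_apply, sbd_single, chm_single, map_sum, map_smul,
      ContinuousMap.comp_assoc]
  exact LinearMap.congr_fun this c

/-- The singular chain given by a chain of tuples in a standard simplex and a map `σ`. -/
def real {N : ℕ} (σ : C(Simp N, X)) (k : ℕ) : L (Simp N) k →ₗ[ℤ] Ch k X :=
  Finsupp.lmapDomain ℤ ℤ (fun w => σ.comp (lin w))

theorem real_single {N : ℕ} (σ : C(Simp N, X)) (k : ℕ) (w : Fin (k + 1) → Simp N) :
    real σ k (Finsupp.single w 1) = Finsupp.single (σ.comp (lin w)) 1 := by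
  simp [real]

theorem real_vt {N : ℕ} (σ : C(Simp N, X)) :
    real σ N (Finsupp.single (vt N) 1) = Finsupp.single σ 1 := by
  rw [real_single, lin_vt, ContinuousMap.comp_id]

theorem real_tbd {N : ℕ} (σ : C(Simp N, X)) (k : ℕ) (c : L (Simp N) (k + 1)) :
    real σ k (tbd _ k c) = sbd k (real σ (k + 1) c) := by
  have : (real σ k).comp (tbd _ k) = (sbd k).comp (real σ (k + 1)) := by
    refine lext fun w => ?_
    simp only [LinearMap.comp_apply, tbd_single, sbd_single, real_single, map_sum, map_smul,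
      ContinuousMap.comp_assoc, lin_comp_smap]
  exact LinearMap.congr_fun this c

theorem real_push {k N : ℕ} (σ : C(Simp N, X)) (w : Fin (k + 1) → Simp N) (l : ℕ)
    (c : L (Simp k) l) :
    real (σ.comp (lin w)) l c = real σ l (push (fun x => lin w x) l c) := by
  have : real (σ.comp (lin w)) l = (real σ l).comp (push (fun x => lin w x) l) := by
    refine lext fun v => ?_
    simp only [LinearMap.comp_apply, real_single, push_single, ContinuousMap.comp_assoc,
      lin_comp_lin]
  exact LinearMap.congr_fun this c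

theorem chm_real {N : ℕ} (g : C(X, Y)) (σ : C(Simp N, X)) (k : ℕ) (c : L (Simp N) k) :
    chm g k (real σ k c) = real (g.comp σ) k c := by
  have : (chm g k).comp (real σ k) = real (g.comp σ) k := by
    refine lext fun v => ?_
    simp only [LinearMap.comp_apply, real_single, chm_single, ContinuousMap.comp_assoc]
  exact LinearMap.congr_fun this c

/-- The simplices of `real σ c` have range in the range of `σ`. -/
theorem real_mem {N : ℕ} (σ : C(Simp N, X)) (k : ℕ) (c : L (Simp N) k) :
    real σ k c ∈ Finsupp.supported ℤ ℤ {τ : C(Simp k, X) | Set.range τ ⊆ Set.range σ} := by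
  refine mem_of_supported (real σ k) (S := Set.univ) (fun w _ => ?_) (by simp)
  rw [real_single]
  refine single_mem_supported ?_
  rintro _ ⟨x, rfl⟩
  exact ⟨lin w x, rfl⟩

/-! ## Subdivision of singular chains -/

/-- Barycentric subdivision of singular chains. -/
def S (n : ℕ) : Ch n X →ₗ[ℤ] Ch n X :=
  Finsupp.linearCombination ℤ
    (fun σ => real σ n (Sd (bary n) n (Finsupp.single (vt n) 1)))

/-- The homotopy between the identity and the barycentric subdivision. -/
def T (n : ℕ) : Ch n X →ₗ[ℤ] Ch (n + 1) X :=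
  Finsupp.linearCombination ℤ
    (fun σ => real σ (n + 1) (Th (bary n) n (Finsupp.single (vt n) 1)))

theorem S_single (n : ℕ) (σ : C(Simp n, X)) :
    S n (Finsupp.single σ 1) = real σ n (Sd (bary n) n (Finsupp.single (vt n) 1)) := by
  simp [S]

theorem T_single (n : ℕ) (σ : C(Simp n, X)) :
    T n (Finsupp.single σ 1) = real σ (n + 1) (Th (bary n) n (Finsupp.single (vt n) 1)) := by
  simp [T]

theorem S_real {N : ℕ} (σ : C(Simp N, X)) (k : ℕ) (c : L (Simp N) k) :
    S k (real σ k c) = real σ k (Sd (bary N) k c) := by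
  have : (S k).comp (real σ k) = (real σ k).comp (Sd (bary N) k) := by
    refine lext fun w => ?_
    rw [LinearMap.comp_apply, LinearMap.comp_apply, real_single, S_single, real_push,
      push_Sd (bary k) (bary N) _ (fun n v => lin_bary w n v), push_single, lin_comp_vt]
  exact LinearMap.congr_fun this c

theorem T_real {N : ℕ} (σ : C(Simp N, X)) (k : ℕ) (c : L (Simp N) k) :
    T k (real σ k c) = real σ (k + 1) (Th (bary N) k c) := by
  have : (T k).comp (real σ k) = (real σ (k + 1)).comp (Th (bary N) k) := by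
    refine lext fun w => ?_
    rw [LinearMap.comp_apply, LinearMap.comp_apply, real_single, T_single, real_push,
      push_Th (bary k) (bary N) _ (fun n v => lin_bary w n v), push_single, lin_comp_vt]
  exact LinearMap.congr_fun this c

theorem sbd_S (n : ℕ) (c : Ch (n + 1) X) : sbd n (S (n + 1) c) = S n (sbd n c) := by
  have : (sbd n).comp (S (n + 1)) = (S n).comp (sbd (X := X) n) := by
    refine lext fun σ => ?_
    rw [LinearMap.comp_apply, LinearMap.comp_apply, S_single, ← real_tbd, tbd_Sd, ← S_real,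
      real_tbd, real_vt]
  exact LinearMap.congr_fun this c

theorem sbd_T_zero (c : Ch 0 X) : sbd 0 (T 0 c) = c - S 0 c := by
  have : (sbd 0).comp (T 0) = LinearMap.id - S (X := X) 0 := by
    refine lext fun σ => ?_
    rw [LinearMap.comp_apply, LinearMap.sub_apply, LinearMap.id_apply, T_single, ← real_tbd,
      tbd_Th_zero, map_sub, real_vt, ← S_single]
  exact LinearMap.congr_fun this c

theorem sbd_T (n : ℕ) (c : Ch (n + 1) X) :
    sbd (n + 1) (T (n + 1) c) + T n (sbd n c) = c - S (n + 1) c := by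
  have : (sbd (n + 1)).comp (T (n + 1)) + (T n).comp (sbd (X := X) n) =
      LinearMap.id - S (n + 1) := by
    refine lext fun σ => ?_
    simp only [LinearMap.add_apply, LinearMap.comp_apply, LinearMap.sub_apply,
      LinearMap.id_apply]
    conv_lhs =>
      enter [2]
      rw [← real_vt σ, ← real_tbd, T_real]
    rw [T_single, ← real_tbd, ← map_add, tbd_Th, map_sub, real_vt, ← S_single]
  exact LinearMap.congr_fun this c

/-- Iterated subdivisions. -/
theorem pow_S_single (n m : ℕ) (σ : C(Simp n, X)) :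
    ((S n) ^ m) (Finsupp.single σ 1) =
      real σ n (((Sd (bary n) n)^[m]) (Finsupp.single (vt n) 1)) := by
  induction m with
  | zero => rw [pow_zero, Function.iterate_zero, id, real_vt, Module.End.one_apply]
  | succ m ih =>
    rw [pow_succ', Module.End.mul_apply, ih, Function.iterate_succ_apply', S_real]

/-- The homotopy between the identity and the iterated subdivision. -/
def Dm (m n : ℕ) : Ch n X →ₗ[ℤ] Ch (n + 1) X :=
  ∑ i ∈ Finset.range m, (T n).comp ((S n) ^ i)

theorem Dm_apply (m n : ℕ) (c : Ch n X) :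
    Dm m n c = ∑ i ∈ Finset.range m, T n (((S n) ^ i) c) := by
  simp [Dm, LinearMap.sum_apply]

theorem sbd_pow_S (n m : ℕ) (c : Ch (n + 1) X) :
    sbd n (((S (n + 1)) ^ m) c) = ((S n) ^ m) (sbd n c) := by
  induction m with
  | zero => simp
  | succ m ih =>
    rw [pow_succ', pow_succ', Module.End.mul_apply, Module.End.mul_apply, sbd_S, ih]

theorem sbd_Dm_zero (m : ℕ) (c : Ch 0 X) : sbd 0 (Dm m 0 c) = c - ((S 0) ^ m) c := by
  rw [Dm_apply, map_sum]
  induction m with
  | zero => simp
  | succ m ih =>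
    rw [Finset.sum_range_succ, ih, sbd_T_zero, pow_succ', Module.End.mul_apply]
    abel

theorem sbd_Dm (m n : ℕ) (c : Ch (n + 1) X) :
    sbd (n + 1) (Dm m (n + 1) c) + Dm m n (sbd n c) = c - ((S (n + 1)) ^ m) c := by
  rw [Dm_apply, Dm_apply, map_sum, ← Finset.sum_add_distrib]
  induction m with
  | zero => simp
  | succ m ih =>
    rw [Finset.sum_range_succ, ih, ← sbd_pow_S, sbd_T, pow_succ', Module.End.mul_apply]
    abel

/-! ## Supports -/

theorem S_mem (n : ℕ) {P : Set X} {c : Ch n X}
    (hc : c ∈ Finsupp.supported ℤ ℤ {τ : C(Simp n, X) | Set.range τ ⊆ P}) :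
    S n c ∈ Finsupp.supported ℤ ℤ {τ : C(Simp n, X) | Set.range τ ⊆ P} := by
  refine mem_of_supported (S n) (fun τ hτ => ?_) hc
  rw [S_single]
  exact Finsupp.supported_mono (fun _ h => Set.Subset.trans h hτ) (real_mem τ n _)

theorem T_mem (n : ℕ) {P : Set X} {c : Ch n X}
    (hc : c ∈ Finsupp.supported ℤ ℤ {τ : C(Simp n, X) | Set.range τ ⊆ P}) :
    T n c ∈ Finsupp.supported ℤ ℤ {τ : C(Simp (n + 1), X) | Set.range τ ⊆ P} := by
  refine mem_of_supported (T n) (fun τ hτ => ?_) hc
  rw [T_single]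
  exact Finsupp.supported_mono (fun _ h => Set.Subset.trans h hτ) (real_mem τ (n + 1) _)

theorem pow_S_mem (n m : ℕ) {P : Set X} {c : Ch n X}
    (hc : c ∈ Finsupp.supported ℤ ℤ {τ : C(Simp n, X) | Set.range τ ⊆ P}) :
    ((S n) ^ m) c ∈ Finsupp.supported ℤ ℤ {τ : C(Simp n, X) | Set.range τ ⊆ P} := by
  induction m with
  | zero => simpa using hc
  | succ m ih =>
    rw [pow_succ', Module.End.mul_apply]
    exact S_mem n ih

theorem Dm_mem (m n : ℕ) {P : Set X} {c : Ch n X}
    (hc : c ∈ Finsupp.supported ℤ ℤ {τ : C(Simp n, X) | Set.range τ ⊆ P}) :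
    Dm m n c ∈ Finsupp.supported ℤ ℤ {τ : C(Simp (n + 1), X) | Set.range τ ⊆ P} := by
  rw [Dm_apply]
  exact Submodule.sum_mem _ fun i _ => T_mem n (pow_S_mem n i hc)

theorem sbd_mem (n : ℕ) {P : Set X} {c : Ch (n + 1) X}
    (hc : c ∈ Finsupp.supported ℤ ℤ {τ : C(Simp (n + 1), X) | Set.range τ ⊆ P}) :
    sbd n c ∈ Finsupp.supported ℤ ℤ {τ : C(Simp n, X) | Set.range τ ⊆ P} := by
  refine mem_of_supported (sbd n) (fun τ hτ => ?_) hc
  rw [sbd_single]
  refine Submodule.sum_mem _ fun i _ => Submodule.smul_mem _ _ (single_mem_supported ?_)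
  rintro _ ⟨x, rfl⟩
  exact hτ ⟨_, rfl⟩

theorem single_mem_range (n : ℕ) (σ : C(Simp n, X)) :
    Finsupp.single σ (1 : ℤ) ∈
      Finsupp.supported ℤ ℤ {τ : C(Simp n, X) | Set.range τ ⊆ Set.range σ} :=
  single_mem_supported (Set.Subset.refl _)

end

end Pool.Agent.Lib.MP_904b2a_gt.H41
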