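import Pool.Agent.Lib.MP_904b2a_gt.H41.Tuples

/-!
# MP_904b2a_gt, module SING-2, part 2: linear simplices in a standard simplex
-/

open scoped BigOperators

namespace Pool.Agent.Lib.MP_904b2a_gt.H41

noncomputable section

/-- The linear simplex with the given vertices. -/
def lin {k N : ℕ} (w : Fin (k + 1) → Simp N) : C(Simp k, Simp N) where
  toFun x := ⟨fun j => ∑ i, x i * w i j, fun j => Finset.sum_nonneg fun i _ =>
      mul_nonneg (stdSimplex.zero_le x i) (stdSimplex.zero_le (w i) j), by
    rw [Finset.sum_comm]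
    simp only [← Finset.mul_sum, stdSimplex.sum_eq_one, mul_one]⟩
  continuous_toFun := by
    refine Continuous.subtype_mk (continuous_pi fun j => continuous_finsetSum _ fun i _ => ?_) _
    exact ((continuous_apply i).comp continuous_subtype_val).mul continuous_const

theorem lin_apply {k N : ℕ} (w : Fin (k + 1) → Simp N) (x : Simp k) (j : Fin (N + 1)) :
    lin w x j = ∑ i, x i * w i j := rfl

/-- The vertices of the standard simplex. -/
def vt (n : ℕ) : Fin (n + 1) → Simp n := fun i => stdSimplex.vertex i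

theorem vt_apply (n : ℕ) (i j : Fin (n + 1)) : vt n i j = if j = i then 1 else 0 := by
  change (Pi.single i (1 : ℝ) : Fin (n + 1) → ℝ) j = _
  rw [Pi.single_apply]

theorem lin_vt_apply {k N : ℕ} (w : Fin (k + 1) → Simp N) (i : Fin (k + 1)) :
    lin w (vt k i) = w i := by
  ext j
  rw [lin_apply]
  simp [vt_apply]

theorem lin_comp_vt {k N : ℕ} (w : Fin (k + 1) → Simp N) : (fun x => lin w x) ∘ vt k = w :=
  funext fun i => lin_vt_apply w i

theorem lin_vt (n : ℕ) : lin (vt n) = ContinuousMap.id _ := by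
  ext x j
  change lin (vt n) x j = x j
  rw [lin_apply]
  simp [vt_apply]

theorem smap_apply {m n : ℕ} (f : Fin (m + 1) → Fin (n + 1)) (x : Simp m) (j : Fin (n + 1)) :
    smap f x j = ∑ i with f i = j, x i := by
  change FunOnFinite.linearMap ℝ ℝ f x j = _
  rw [FunOnFinite.linearMap_apply_apply]

theorem lin_comp_smap {k l N : ℕ} (w : Fin (k + 1) → Simp N) (f : Fin (l + 1) → Fin (k + 1)) :
    (lin w).comp (smap f) = lin (w ∘ f) := by
  ext x j
  change lin w (smap f x) j = lin (w ∘ f) x j
  rw [lin_apply, lin_apply]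
  simp only [smap_apply, Function.comp]
  simp only [Finset.sum_mul]
  rw [← Finset.sum_fiberwise (s := Finset.univ) (g := f) (f := fun i => x i * w (f i) j)]
  refine Finset.sum_congr rfl fun i _ => Finset.sum_congr rfl fun a ha => ?_
  rw [(Finset.mem_filter.mp ha).2]

theorem lin_comp_lin {k l N : ℕ} (w : Fin (k + 1) → Simp N) (v : Fin (l + 1) → Simp k) :
    (lin w).comp (lin v) = lin ((fun x => lin w x) ∘ v) := by
  ext x j
  change lin w (lin v x) j = lin ((fun x => lin w x) ∘ v) x j
  rw [lin_apply, lin_apply]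
  simp only [lin_apply, Function.comp, Finset.sum_mul, Finset.mul_sum]
  rw [Finset.sum_comm]
  refine Finset.sum_congr rfl fun i _ => Finset.sum_congr rfl fun a _ => ?_
  ring

theorem smap_eq_lin {m n : ℕ} (f : Fin (m + 1) → Fin (n + 1)) :
    smap f = lin (vt n ∘ f) := by
  rw [← lin_comp_smap, lin_vt, ContinuousMap.id_comp]

/-- The barycenter of a linear simplex. -/
def bary (N : ℕ) (n : ℕ) (w : Fin (n + 1) → Simp N) : Simp N := lin w stdSimplex.barycenter

theorem lin_bary {k N : ℕ} (w : Fin (k + 1) → Simp N) (n : ℕ) (v : Fin (n + 1) → Simp k) :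
    lin w (bary k n v) = bary N n ((fun x => lin w x) ∘ v) := by
  unfold bary
  rw [← lin_comp_lin]
  rfl

/-! ## Diameters -/

/-- The vertices of `w` have distance at most `d`. -/
def Spread {k N : ℕ} (d : ℝ) (w : Fin (k + 1) → Simp N) : Prop :=
  ∀ i j, dist (w i) (w j) ≤ d

/-- The convex hull of the vertices. -/
def hull {k N : ℕ} (w : Fin (k + 1) → Simp N) : Set (Fin (N + 1) → ℝ) :=
  convexHull ℝ (Set.range fun i => (w i).1)

theorem mem_hull {k N : ℕ} (w : Fin (k + 1) → Simp N) (i : Fin (k + 1)) : (w i).1 ∈ hull w :=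
  subset_convexHull _ _ ⟨i, rfl⟩

theorem lin_mem_hull {k N : ℕ} (w : Fin (k + 1) → Simp N) (x : Simp k) :
    (lin w x).1 ∈ hull w := by
  have : (lin w x).1 = ∑ i, x i • (w i).1 := by
    funext j
    rw [Finset.sum_apply]
    rfl
  rw [this]
  exact (convex_convexHull ℝ _).sum_mem (fun i _ => stdSimplex.zero_le x i)
    (stdSimplex.sum_eq_one x) (fun i _ => mem_hull w i)

theorem hull_comp {k l N : ℕ} (w : Fin (k + 1) → Simp N) (f : Fin (l + 1) → Fin (k + 1)) :
    hull (w ∘ f) ⊆ hull w :=
  convexHull_mono (by rintro _ ⟨i, rfl⟩; exact ⟨f i, rfl⟩)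

/-- A point with distance at most `r` from all vertices has distance at most `r` from all points
of the hull. -/
theorem dist_hull {k N : ℕ} (w : Fin (k + 1) → Simp N) {r : ℝ} {y : Fin (N + 1) → ℝ}
    (h : ∀ i, dist y (w i).1 ≤ r) {x : Fin (N + 1) → ℝ} (hx : x ∈ hull w) : dist y x ≤ r := by
  have : hull w ⊆ Metric.closedBall y r :=
    convexHull_min (by
      rintro _ ⟨i, rfl⟩
      rw [Metric.mem_closedBall, dist_comm]
      exact h i) (convex_closedBall y r)
  have h2 := this hx
  rwa [Metric.mem_closedBall, dist_comm] at h2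

theorem dist_lin_le {k N : ℕ} (w : Fin (k + 1) → Simp N) {d : ℝ} (h : Spread d w)
    (x y : Simp k) : dist (lin w x) (lin w y) ≤ d := by
  change dist (lin w x).1 (lin w y).1 ≤ d
  refine dist_hull w (fun i => ?_) (lin_mem_hull w y)
  rw [dist_comm]
  exact dist_hull w (fun j => h i j) (lin_mem_hull w x)

theorem dist_bary_le {k N : ℕ} (w : Fin (k + 1) → Simp N) {d : ℝ}
    (h : Spread d w) (i : Fin (k + 1)) :
    dist (bary N k w).1 (w i).1 ≤ (k : ℝ) / (k + 1) * d := by
  have hk : (0 : ℝ) < (k : ℝ) + 1 := by positivity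
  have e : (bary N k w).1 - (w i).1 = ∑ j, ((k : ℝ) + 1)⁻¹ • ((w j).1 - (w i).1) := by
    funext a
    rw [Finset.sum_apply]
    have h1 : (bary N k w).1 a = ∑ j, ((k : ℝ) + 1)⁻¹ * (w j).1 a := by
      change lin w stdSimplex.barycenter a = _
      rw [lin_apply]
      refine Finset.sum_congr rfl fun j _ => ?_
      congr 1
      change ((Fintype.card (Fin (k + 1)) : ℝ))⁻¹ = _
      rw [Fintype.card_fin]
      push_cast
      rfl
    rw [Pi.sub_apply, h1]
    simp only [Pi.smul_apply, Pi.sub_apply, smul_eq_mul, mul_sub, Finset.sum_sub_distrib,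
      Finset.sum_const, Finset.card_univ, Fintype.card_fin, nsmul_eq_mul]
    push_cast
    field_simp
  rw [dist_eq_norm, e]
  calc ‖∑ j, ((k : ℝ) + 1)⁻¹ • ((w j).1 - (w i).1)‖
      ≤ ∑ j, ‖((k : ℝ) + 1)⁻¹ • ((w j).1 - (w i).1)‖ := norm_sum_le _ _
    _ ≤ ∑ j, (if j = i then 0 else ((k : ℝ) + 1)⁻¹ * d) := by
        refine Finset.sum_le_sum fun j _ => ?_
        split_ifs with hj
        · subst hj
          simp
        · rw [norm_smul, Real.norm_of_nonneg (by positivity), ← dist_eq_norm]
          exact mul_le_mul_of_nonneg_left (h j i) (by positivity)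
    _ = (k : ℝ) / (k + 1) * d := by
        rw [Finset.sum_ite]
        simp only [Finset.sum_const_zero, zero_add, Finset.sum_const, nsmul_eq_mul]
        rw [Finset.filter_not, Finset.filter_eq' Finset.univ i, if_pos (Finset.mem_univ i),
          Finset.card_sdiff_of_subset (Finset.subset_univ _), Finset.card_univ,
          Fintype.card_fin, Finset.card_singleton, Nat.add_sub_cancel]
        field_simp

/-- The simplices of the subdivision. -/
theorem Sd_spread {N : ℕ} : ∀ (k : ℕ) (w : Fin (k + 1) → Simp N) (d : ℝ), Spread d w →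
    Sd (bary N) k (Finsupp.single w 1) ∈ Finsupp.supported ℤ ℤ
      {v : Fin (k + 1) → Simp N | (∀ i, (v i).1 ∈ hull w) ∧ Spread ((k : ℝ) / (k + 1) * d) v}
  | 0, w, d, h => by
    rw [Sd_zero]
    refine single_mem_supported ⟨fun i => mem_hull w i, fun i j => ?_⟩
    rw [Fin.fin_one_eq_zero i, Fin.fin_one_eq_zero j]
    simp
  | (k + 1), w, d, h => by
    have hd : 0 ≤ d := dist_nonneg.trans (h 0 0)
    rw [Sd_succ, tbd_single, map_sum, map_sum]
    refine Submodule.sum_mem _ fun i _ => ?_
    rw [map_smul, map_smul]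
    refine Submodule.smul_mem _ _ ?_
    have hs : Spread d (w ∘ fv k i) := fun a b => h _ _
    have ih := Sd_spread k (w ∘ fv k i) d hs
    refine mem_of_supported (cone (bary N (k + 1) w) k) ?_ ih
    rintro v ⟨hv1, hv2⟩
    rw [cone_single]
    have hle : (k : ℝ) / (k + 1) * d ≤ ((k + 1 : ℕ) : ℝ) / ((k + 1 : ℕ) + 1) * d := by
      refine mul_le_mul_of_nonneg_right ?_ hd
      push_cast
      rw [div_le_div_iff₀ (by positivity) (by positivity)]
      nlinarith
    have hb : ∀ a, dist (bary N (k + 1) w).1 (v a).1 ≤ ((k + 1 : ℕ) : ℝ) / ((k + 1 : ℕ) + 1) * d :=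
      fun a => dist_hull w (fun j => dist_bary_le w h j) (hull_comp w _ (hv1 a))
    refine single_mem_supported ⟨fun a => ?_, fun a c => ?_⟩
    · refine Fin.cases ?_ (fun a => ?_) a
      · rw [Fin.cons_zero]
        exact lin_mem_hull w _
      · rw [Fin.cons_succ]
        exact hull_comp w _ (hv1 a)
    · refine Fin.cases ?_ (fun a => ?_) a
      · refine Fin.cases ?_ (fun c => ?_) c
        · rw [dist_self]
          positivity
        · rw [Fin.cons_zero, Fin.cons_succ]
          exact hb c
      · refine Fin.cases ?_ (fun c => ?_) c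
        · rw [Fin.cons_zero, Fin.cons_succ, dist_comm]
          exact hb a
        · rw [Fin.cons_succ, Fin.cons_succ]
          exact (hv2 a c).trans hle

/-- The vertices of the standard simplex have distance at most one. -/
theorem spread_vt (n : ℕ) : Spread 1 (vt n) := fun i j => by
  change dist (vt n i).1 (vt n j).1 ≤ 1
  refine (Metric.dist_le_diam_of_mem (bounded_stdSimplex (Fin (n + 1))) (vt n i).2
    (vt n j).2).trans diam_stdSimplex_le

/-- Iterated subdivisions have small simplices. -/
theorem iter_Sd_spread (n m : ℕ) :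
    ((Sd (bary n) n)^[m]) (Finsupp.single (vt n) 1) ∈ Finsupp.supported ℤ ℤ
      {v : Fin (n + 1) → Simp n | Spread (((n : ℝ) / (n + 1)) ^ m) v} := by
  induction m with
  | zero =>
    rw [Function.iterate_zero, id]
    refine single_mem_supported ?_
    change Spread _ _
    rw [pow_zero]
    exact spread_vt n
  | succ m ih =>
    rw [Function.iterate_succ_apply']
    refine mem_of_supported (Sd (bary n) n) ?_ ih
    intro v hv
    have := Sd_spread n v _ hv
    refine Finsupp.supported_mono ?_ this
    rintro u ⟨_, hu⟩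
    change Spread _ _
    rw [pow_succ, mul_comm]
    exact hu

end

end Pool.Agent.Lib.MP_904b2a_gt.H41
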