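import Pool.Agent.Lib.MP_904b2a_gt.H41.Chains

/-!
# MP_904b2a_gt, module SING-2, part 4: the small simplices theorem
-/

open scoped BigOperators

namespace Pool.Agent.Lib.MP_904b2a_gt.H41

noncomputable section

variable {X : Type*} [TopologicalSpace X] {ι : Type*}

/-- The simplices which are contained in one of the sets `U i`. -/
def small (U : ι → Set X) (n : ℕ) : Set C(Simp n, X) := {σ | ∃ i, Set.range σ ⊆ U i}

/-- Small chains. -/
abbrev smallCh (U : ι → Set X) (n : ℕ) : Submodule ℤ (Ch n X) :=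
  Finsupp.supported ℤ ℤ (small U n)

/-- `δ` is a Lebesgue number for the covering pulled back by `σ`. -/
def Good (U : ι → Set X) {n : ℕ} (σ : C(Simp n, X)) (δ : ℝ) : Prop :=
  ∀ A : Set (Simp n), (∀ x ∈ A, ∀ y ∈ A, dist x y ≤ δ) → ∃ i, σ '' A ⊆ U i

theorem Good.mono {U : ι → Set X} {n : ℕ} {σ : C(Simp n, X)} {δ δ' : ℝ} (h : Good U σ δ)
    (hδ : δ' ≤ δ) : Good U σ δ' :=
  fun A hA => h A fun x hx y hy => (hA x hx y hy).trans hδ

theorem exists_good {U : ι → Set X} (hU : ∀ i, IsOpen (U i)) (hc : ⋃ i, U i = Set.univ)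
    {n : ℕ} (σ : C(Simp n, X)) : ∃ δ > 0, Good U σ δ := by
  obtain ⟨δ, hδ, h⟩ := lebesgue_number_lemma_of_metric (isCompact_univ (X := Simp n))
    (fun i => (hU i).preimage σ.continuous) (c := fun i => σ ⁻¹' U i) (by
      intro x _
      have : σ x ∈ ⋃ i, U i := hc ▸ Set.mem_univ _
      obtain ⟨i, hi⟩ := Set.mem_iUnion.mp this
      exact Set.mem_iUnion.mpr ⟨i, hi⟩)
  refine ⟨δ / 2, by positivity, fun A hA => ?_⟩
  rcases A.eq_empty_or_nonempty with rfl | ⟨x, hx⟩
  · obtain ⟨i, _⟩ := h (vt n 0) (Set.mem_univ _)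
    exact ⟨i, by simp⟩
  · obtain ⟨i, hi⟩ := h x (Set.mem_univ _)
    refine ⟨i, ?_⟩
    rintro _ ⟨y, hy, rfl⟩
    refine hi ?_
    rw [Metric.mem_ball]
    exact (hA y hy x hx).trans_lt (by linarith)

theorem dist_smap_le {m n : ℕ} (f : Fin (m + 1) → Fin (n + 1)) (hf : Function.Injective f)
    (x y : Simp m) : dist (smap f x) (smap f y) ≤ dist x y := by
  change dist (smap f x).1 (smap f y).1 ≤ dist x.1 y.1
  rw [dist_pi_le_iff dist_nonneg]
  intro j
  change dist (smap f x j) (smap f y j) ≤ _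
  rw [smap_apply, smap_apply]
  by_cases h : ∃ i, f i = j
  · obtain ⟨i, rfl⟩ := h
    have : (Finset.univ.filter fun k => f k = f i) = {i} := by
      ext k
      simp [hf.eq_iff]
    rw [this, Finset.sum_singleton, Finset.sum_singleton]
    exact dist_le_pi_dist x.1 y.1 i
  · have : (Finset.univ.filter fun k => f k = j) = ∅ := by
      ext k
      simp only [Finset.mem_filter, Finset.mem_univ, true_and, Finset.notMem_empty, iff_false]
      exact fun hk => h ⟨k, hk⟩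
    rw [this, Finset.sum_empty, Finset.sum_empty, dist_self]
    exact dist_nonneg

theorem fv_injective (n i : ℕ) : Function.Injective (fv n i) := by
  intro a b h
  have := congrArg Fin.val h
  rw [fv_val, fv_val] at this
  apply Fin.ext
  split_ifs at this <;> omega

theorem Good.face {U : ι → Set X} {n : ℕ} {σ : C(Simp (n + 1), X)} {δ : ℝ} (h : Good U σ δ)
    (j : ℕ) : Good U (σ.comp (smap (fv n j))) δ := by
  intro A hA
  obtain ⟨i, hi⟩ := h (smap (fv n j) '' A) (by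
    rintro _ ⟨x, hx, rfl⟩ _ ⟨y, hy, rfl⟩
    exact (dist_smap_le _ (fv_injective n j) x y).trans (hA x hx y hy))
  refine ⟨i, ?_⟩
  rintro _ ⟨x, hx, rfl⟩
  exact hi ⟨_, ⟨x, hx, rfl⟩, rfl⟩

/-- The contraction factor. -/
def cf (n : ℕ) : ℝ := (n : ℝ) / (n + 1)

theorem cf_nonneg (n : ℕ) : 0 ≤ cf n := by unfold cf; positivity

theorem cf_lt_one (n : ℕ) : cf n < 1 := by
  unfold cf
  rw [div_lt_one (by positivity)]
  linarith

theorem cf_le_succ (n : ℕ) : cf n ≤ cf (n + 1) := by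
  unfold cf
  push_cast
  rw [div_le_div_iff₀ (by positivity) (by positivity)]
  nlinarith

variable (U : ι → Set X)

open Classical in
/-- The number of subdivisions which make `σ` small. -/
def mm {n : ℕ} (σ : C(Simp n, X)) : ℕ :=
  if h : ∃ m, Good U σ (cf n ^ m) then Nat.find h else 0

theorem exists_mm {U : ι → Set X} (hU : ∀ i, IsOpen (U i)) (hc : ⋃ i, U i = Set.univ)
    {n : ℕ} (σ : C(Simp n, X)) : ∃ m, Good U σ (cf n ^ m) := by
  obtain ⟨δ, hδ, h⟩ := exists_good hU hc σ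
  obtain ⟨m, hm⟩ := exists_pow_lt_of_lt_one hδ (cf_lt_one n)
  exact ⟨m, h.mono hm.le⟩

variable {U}

theorem mm_spec (hU : ∀ i, IsOpen (U i)) (hc : ⋃ i, U i = Set.univ) {n : ℕ}
    (σ : C(Simp n, X)) : Good U σ (cf n ^ mm U σ) := by
  classical
  rw [mm, dif_pos (exists_mm hU hc σ)]
  exact Nat.find_spec (exists_mm hU hc σ)

theorem mm_le {n : ℕ} {σ : C(Simp n, X)} {m : ℕ} (h : Good U σ (cf n ^ m)) : mm U σ ≤ m := by
  classical
  rw [mm, dif_pos ⟨m, h⟩]
  exact Nat.find_le h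

theorem mm_face (hU : ∀ i, IsOpen (U i)) (hc : ⋃ i, U i = Set.univ) {n : ℕ}
    (σ : C(Simp (n + 1), X)) (j : ℕ) : mm U (σ.comp (smap (fv n j))) ≤ mm U σ := by
  refine mm_le ?_
  refine ((mm_spec hU hc σ).face j).mono ?_
  exact pow_le_pow_left₀ (cf_nonneg n) (cf_le_succ n) _

theorem mm_small {n : ℕ} {σ : C(Simp n, X)} (h : σ ∈ small U n) : mm U σ = 0 := by
  refine Nat.le_zero.mp (mm_le ?_)
  obtain ⟨i, hi⟩ := h
  exact fun A _ => ⟨i, (Set.image_subset_range σ A).trans hi⟩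

/-- Small chains are stable under `T` and `S`. -/
theorem T_small (n : ℕ) {c : Ch n X} (hc : c ∈ smallCh U n) : T n c ∈ smallCh U (n + 1) := by
  refine mem_of_supported (T n) (fun τ hτ => ?_) hc
  obtain ⟨i, hi⟩ := hτ
  refine Finsupp.supported_mono ?_
    (T_mem n (single_mem_supported (S := {τ : C(Simp n, X) | Set.range τ ⊆ U i}) hi))
  exact fun _ h => ⟨i, h⟩

theorem pow_S_small (hU : ∀ i, IsOpen (U i)) (hc : ⋃ i, U i = Set.univ) {n m : ℕ}
    {σ : C(Simp n, X)} (h : mm U σ ≤ m) :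
    ((S n) ^ m) (Finsupp.single σ 1) ∈ smallCh U n := by
  rw [pow_S_single]
  refine mem_of_supported (real σ n) (fun w hw => ?_) (iter_Sd_spread n m)
  rw [real_single]
  refine single_mem_supported ?_
  have hg : Good U σ (cf n ^ m) := (mm_spec hU hc σ).mono
    (pow_le_pow_of_le_one (cf_nonneg n) (cf_lt_one n).le h)
  obtain ⟨i, hi⟩ := hg (Set.range (lin w)) (by
    rintro _ ⟨x, rfl⟩ _ ⟨y, rfl⟩
    exact dist_lin_le w hw x y)
  refine ⟨i, ?_⟩
  rintro _ ⟨x, rfl⟩
  exact hi ⟨lin w x, ⟨x, rfl⟩, rfl⟩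

variable (U)

/-- The homotopy of the small simplices theorem. -/
def Dh (n : ℕ) : Ch n X →ₗ[ℤ] Ch (n + 1) X :=
  Finsupp.linearCombination ℤ (fun σ => Dm (mm U σ) n (Finsupp.single σ 1))

theorem Dh_single (n : ℕ) (σ : C(Simp n, X)) :
    Dh U n (Finsupp.single σ 1) = Dm (mm U σ) n (Finsupp.single σ 1) := by
  simp [Dh]

/-- The chain map onto small chains. -/
def rho : ∀ n, Ch n X →ₗ[ℤ] Ch n X
  | 0 => LinearMap.id - (sbd 0).comp (Dh U 0)
  | (n + 1) => LinearMap.id - (sbd (n + 1)).comp (Dh U (n + 1)) - (Dh U n).comp (sbd n)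

theorem rho_zero (c : Ch 0 X) : rho U 0 c = c - sbd 0 (Dh U 0 c) := rfl

theorem rho_succ (n : ℕ) (c : Ch (n + 1) X) :
    rho U (n + 1) c = c - sbd (n + 1) (Dh U (n + 1) c) - Dh U n (sbd n c) := rfl

/-- `ρ` is a chain map. -/
theorem sbd_rho (n : ℕ) (c : Ch (n + 1) X) : sbd n (rho U (n + 1) c) = rho U n (sbd n c) := by
  cases n with
  | zero => rw [rho_succ, rho_zero, map_sub, map_sub, sbd_sbd, sub_zero]
  | succ n =>
    rw [rho_succ, rho_succ, map_sub, map_sub, sbd_sbd, sbd_sbd, sub_zero, map_zero, sub_zero]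

variable {U}

theorem Dh_single_small {n : ℕ} {σ : C(Simp n, X)} (h : σ ∈ small U n) :
    Dh U n (Finsupp.single σ 1) = 0 := by
  rw [Dh_single, mm_small h, Dm_apply, Finset.sum_range_zero]

theorem Dh_small {n : ℕ} {c : Ch n X} (h : c ∈ smallCh U n) : Dh U n c = 0 := by
  have := mem_of_supported (Dh U n) (P := ⊥) (fun τ hτ => by
    rw [Dh_single_small hτ]
    exact zero_mem _) h
  exact (Submodule.mem_bot ℤ).mp this

theorem sbd_small {n : ℕ} {c : Ch (n + 1) X} (hc : c ∈ smallCh U (n + 1)) :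
    sbd n c ∈ smallCh U n := by
  refine mem_of_supported (sbd n) (fun τ hτ => ?_) hc
  obtain ⟨i, hi⟩ := hτ
  refine Finsupp.supported_mono ?_
    (sbd_mem n (single_mem_supported (S := {τ : C(Simp (n + 1), X) | Set.range τ ⊆ U i}) hi))
  exact fun _ h => ⟨i, h⟩

/-- `ρ` is the identity on small chains. -/
theorem rho_small {n : ℕ} {c : Ch n X} (h : c ∈ smallCh U n) : rho U n c = c := by
  cases n with
  | zero => rw [rho_zero, Dh_small h, map_zero, sub_zero]
  | succ n =>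
    rw [rho_succ, Dh_small h, map_zero, sub_zero, Dh_small (sbd_small h), sub_zero]

theorem aux_sub {M : Type*} [AddCommGroup M] {a b s p : M} (h : a + b = s - p) :
    s - a = p + b := by
  rw [sub_eq_iff_eq_add, add_assoc, add_comm b a, h]
  abel

/-- The values of `ρ` are small. -/
theorem rho_mem (hU : ∀ i, IsOpen (U i)) (hc : ⋃ i, U i = Set.univ) (n : ℕ) (c : Ch n X) :
    rho U n c ∈ smallCh U n := by
  refine mem_of_supported (rho U n) (S := Set.univ) (fun σ _ => ?_) (by simp)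
  cases n with
  | zero =>
    rw [rho_zero, Dh_single, sbd_Dm_zero, sub_sub_cancel]
    exact pow_S_small hU hc le_rfl
  | succ n =>
    have h1 := sbd_Dm (mm U σ) n (Finsupp.single σ 1)
    have h2 : Finsupp.single σ 1 - sbd (n + 1) (Dm (mm U σ) (n + 1) (Finsupp.single σ 1)) =
        ((S (n + 1)) ^ (mm U σ)) (Finsupp.single σ 1) +
          Dm (mm U σ) n (sbd n (Finsupp.single σ 1)) := by
      exact aux_sub h1
    rw [rho_succ, Dh_single, h2, add_sub_assoc]
    refine Submodule.add_mem _ (pow_S_small hU hc le_rfl) ?_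
    rw [sbd_single, map_sum, map_sum, ← Finset.sum_sub_distrib]
    refine Submodule.sum_mem _ fun j _ => ?_
    rw [map_smul, map_smul, ← smul_sub]
    refine Submodule.smul_mem _ _ ?_
    rw [Dh_single, Dm_apply, Dm_apply]
    have hle := mm_face hU hc σ j
    rw [← Finset.sum_range_add_sum_Ico _ hle, add_sub_cancel_left]
    refine Submodule.sum_mem _ fun i hi => T_small n (pow_S_small hU hc ?_)
    exact (Finset.mem_Ico.mp hi).1

/-- The supports of `Dh` are inside the range. -/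
theorem Dh_mem (n : ℕ) {P : Set X} {c : Ch n X}
    (hc : c ∈ Finsupp.supported ℤ ℤ {τ : C(Simp n, X) | Set.range τ ⊆ P}) :
    Dh U n c ∈ Finsupp.supported ℤ ℤ {τ : C(Simp (n + 1), X) | Set.range τ ⊆ P} := by
  refine mem_of_supported (Dh U n) (fun τ hτ => ?_) hc
  rw [Dh_single]
  exact Dm_mem _ n (single_mem_supported hτ)

/-- The supports of `rho` are inside the range. -/
theorem rho_mem_range (n : ℕ) {P : Set X} {c : Ch n X}
    (hc : c ∈ Finsupp.supported ℤ ℤ {τ : C(Simp n, X) | Set.range τ ⊆ P}) :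
    rho U n c ∈ Finsupp.supported ℤ ℤ {τ : C(Simp n, X) | Set.range τ ⊆ P} := by
  cases n with
  | zero =>
    rw [rho_zero]
    exact Submodule.sub_mem _ hc (sbd_mem 0 (Dh_mem 0 hc))
  | succ n =>
    rw [rho_succ]
    exact Submodule.sub_mem _ (Submodule.sub_mem _ hc (sbd_mem _ (Dh_mem _ hc)))
      (Dh_mem _ (sbd_mem _ hc))

/-- **The small simplices theorem** (chain level). -/
theorem small_simplices (U : ι → Set X) (hU : ∀ i, IsOpen (U i))
    (hc : ⋃ i, U i = Set.univ) :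
    ∃ (ρ : ∀ n, Ch n X →ₗ[ℤ] Ch n X) (D : ∀ n, Ch n X →ₗ[ℤ] Ch (n + 1) X),
      (∀ n c, sbd n (ρ (n + 1) c) = ρ n (sbd n c)) ∧
      (∀ n c, ρ n c ∈ smallCh U n) ∧
      (∀ n, ∀ c ∈ smallCh U n, ρ n c = c ∧ D n c = 0) ∧
      (∀ c, sbd 0 (D 0 c) = c - ρ 0 c) ∧
      (∀ n c, sbd (n + 1) (D (n + 1) c) + D n (sbd n c) = c - ρ (n + 1) c) ∧
      (∀ n (P : Set X), ∀ c ∈ Finsupp.supported ℤ ℤ {τ : C(Simp n, X) | Set.range τ ⊆ P},
        ρ n c ∈ Finsupp.supported ℤ ℤ {τ : C(Simp n, X) | Set.range τ ⊆ P} ∧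
          D n c ∈ Finsupp.supported ℤ ℤ {τ : C(Simp (n + 1), X) | Set.range τ ⊆ P}) := by
  refine ⟨rho U, Dh U, sbd_rho U, rho_mem hU hc, fun n c h => ⟨rho_small h, Dh_small h⟩,
    fun c => ?_, fun n c => ?_, fun n P c h => ⟨rho_mem_range n h, Dh_mem n h⟩⟩
  · rw [rho_zero, sub_sub_cancel]
  · rw [rho_succ]
    abel

end

end Pool.Agent.Lib.MP_904b2a_gt.H41
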